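import Pool.Agent.helper17.SG.SpecP

/-!
# Project sg (MP_2b8aea_gt): module P01 (basic properties of the hitting probability)
-/

set_option autoImplicit false

open MeasureTheory Set Metric Filter Topology
open scoped ENNReal NNReal ComplexConjugate

namespace Pool.Agent.SG

section
variable {Γ : Type} [Group Γ] (W : Walk Γ)

open Classical in
lemma P01_zero (x y : Γ) : W.hitn 0 x y = if x = y then 1 else 0 := by
  rw [Walk.hitn]

open Classical in
lemma P01_succ (n : ℕ) (x y : Γ) : W.hitn (n + 1) x y =
    if x = y then 1 else ∑ s ∈ W.S, W.μ s * W.hitn n (x * s) y := by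
  rw [Walk.hitn]

lemma P01_self (n : ℕ) (x : Γ) : W.hitn n x x = 1 := by
  cases n with
  | zero => rw [P01_zero, if_pos rfl]
  | succ n => rw [P01_succ, if_pos rfl]

lemma P01_mono (x y : Γ) : Monotone fun n => W.hitn n x y := by
  refine monotone_nat_of_le_succ fun n => ?_
  induction n generalizing x with
  | zero =>
    by_cases h : x = y
    · subst h
      rw [P01_self, P01_self]
    · rw [P01_zero, if_neg h]
      exact bot_le
  | succ n ih =>
    by_cases h : x = y
    · subst h
      rw [P01_self, P01_self]
    · rw [P01_succ, P01_succ W (n + 1), if_neg h, if_neg h]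
      exact Finset.sum_le_sum fun s _ => mul_le_mul_right (ih (x * s)) _

lemma P01_le_one (n : ℕ) (x y : Γ) : W.hitn n x y ≤ 1 := by
  induction n generalizing x with
  | zero =>
    rw [P01_zero]
    split_ifs
    · exact le_refl _
    · exact zero_le_one
  | succ n ih =>
    rw [P01_succ]
    split_ifs
    · exact le_refl _
    · calc ∑ s ∈ W.S, W.μ s * W.hitn n (x * s) y ≤ ∑ s ∈ W.S, W.μ s * 1 :=
            Finset.sum_le_sum fun s _ => mul_le_mul_right (ih (x * s)) _
        _ = 1 := by simp only [mul_one]; exact W.sum

lemma P01_inv (g : Γ) (n : ℕ) (x y : Γ) : W.hitn n (g * x) (g * y) = W.hitn n x y := by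
  induction n generalizing x with
  | zero =>
    by_cases h : x = y
    · subst h
      rw [P01_self, P01_self]
    · rw [P01_zero, P01_zero, if_neg h, if_neg fun h' => h (mul_left_cancel h')]
  | succ n ih =>
    by_cases h : x = y
    · subst h
      rw [P01_self, P01_self]
    · rw [P01_succ, P01_succ, if_neg h, if_neg fun h' => h (mul_left_cancel h')]
      refine Finset.sum_congr rfl fun s _ => ?_
      rw [mul_assoc, ih]

end

theorem P01 : P01_stmt := by
  intro Γ _ W
  refine ⟨P01_mono W, fun x y => iSup_le fun n => P01_le_one W n x y, fun x => ?_,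
    fun x y hxy => ?_, fun g x y => ?_⟩
  · unfold Walk.hit
    simp only [P01_self, iSup_const]
  · unfold Walk.hit
    rw [← (P01_mono W x y).iSup_nat_add 1]
    simp only [P01_succ, if_neg hxy]
    rw [← ENNReal.finsetSum_iSup_of_monotone]
    · simp only [ENNReal.mul_iSup]
    · intro s n m hnm
      exact mul_le_mul_right (P01_mono W (x * s) y hnm) _
  · unfold Walk.hit
    simp only [P01_inv]

end Pool.Agent.SG
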