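import Pool.Agent.helper17.SG.SpecB

/-!
# Project sg (MP_2b8aea_gt): module B16 (density lemma)
-/

set_option autoImplicit false

open MeasureTheory Set Metric Filter Topology
open scoped ENNReal NNReal ComplexConjugate

namespace Pool.Agent.SG

theorem B16 : B16_stmt := by
  intro m _ N hN h
  rw [measure_eq_zero_iff_ae_notMem]
  filter_upwards [h, Besicovitch.ae_tendsto_measure_inter_div_of_measurableSet m hN] with η h1 h2
  intro hη
  obtain ⟨c, hc, h3⟩ := h1 hη
  rw [indicator_of_mem hη] at h2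
  have h4 : ∃ᶠ r in 𝓝[>] (0 : ℝ), m (N ∩ closedBall η r) / m (closedBall η r) ≤
      1 - ENNReal.ofReal c := by
    rw [frequently_iff]
    intro U hU
    rw [mem_nhdsGT_iff_exists_Ioo_subset] at hU
    obtain ⟨δ, hδ, hδU⟩ := hU
    obtain ⟨r, hr, hrδ, S, hS, hSb, hSN, hSm⟩ := h3 δ hδ
    refine ⟨r, hδU ⟨hr, hrδ⟩, ?_⟩
    refine ENNReal.div_le_of_le_mul ?_
    have h5 : m (N ∩ closedBall η r) + m S ≤ m (closedBall η r) := by
      rw [← measure_union (hSN.symm.mono_left inter_subset_left) hS]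
      exact measure_mono (union_subset inter_subset_right hSb)
    rw [ENNReal.sub_mul fun _ _ => measure_ne_top _ _, one_mul]
    refine ENNReal.le_sub_of_add_le_right ?_ ?_
    · exact ENNReal.mul_ne_top ENNReal.ofReal_ne_top (measure_ne_top _ _)
    · exact le_trans (by gcongr) h5
  have h5 : (1 : ℝ≥0∞) ≤ 1 - ENNReal.ofReal c := le_of_tendsto_of_frequently h2 h4
  have h6 : (1 : ℝ≥0∞) - ENNReal.ofReal c < 1 :=
    ENNReal.sub_lt_self ENNReal.one_ne_top one_ne_zero (ENNReal.ofReal_pos.mpr hc).ne'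
  exact absurd h5 (not_le.mpr h6)

end Pool.Agent.SG
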