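import Pool.Agent.helper17.SG.SpecM

/-!
# Project sg (MP_2b8aea_gt): module M09 (dichotomy)

The set `S` with `lam S = 0` that carries the singular part of `ν` is replaced by the invariant set
`B = ⋃ γ, act γ ⁻¹' S`; it is again a null set of `lam`, and the zero-one law M08 applies to it.
-/

set_option autoImplicit false

open MeasureTheory Set Metric Filter Topology
open scoped ENNReal NNReal ComplexConjugate

namespace Pool.Agent.SG

theorem M09 (hM08 : M08_stmt) (hB01 : B01_stmt) (hB05 : B05_stmt) (hB06 : B06_stmt)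
    (hB14 : B14_stmt) :
    M09_stmt := by
  intro Γ _ A W ν hν
  obtain ⟨-, -, -, -, hmul, -, -, hmeas, -, -⟩ := hB01 Γ A
  obtain ⟨-, hcount, -⟩ := hB14 Γ A
  have : Countable Γ := hcount hν.disc
  have hprob : IsProbabilityMeasure ν := hν.prob
  have hlamp : IsProbabilityMeasure lam := hB05.1
  -- the singular part
  obtain ⟨S, hS, hS1, hS2⟩ := Measure.mutuallySingular_singularPart ν lam
  let B : Set ℂ := ⋃ γ : Γ, A.act γ ⁻¹' Sᶜ
  have hB : MeasurableSet B := MeasurableSet.iUnion fun γ => hmeas γ hS.compl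
  have hlam : lam B = 0 := by
    refine measure_iUnion_null fun γ => ?_
    have h1 : lax A γ Sᶜ = 0 := by
      rw [hB06 Γ A γ]
      exact withDensity_absolutelyContinuous _ _ hS2
    unfold lax at h1
    rwa [Measure.map_apply (hmeas γ) hS.compl] at h1
  have hinv : ∀ γ, ∀ ξ ∈ circ, (ξ ∈ B ↔ A.act γ ξ ∈ B) := by
    intro γ ξ hξ
    have hξ1 : ‖ξ‖ ≤ 1 := by
      have : ‖ξ‖ = 1 := by simpa [circ] using hξ
      exact this.le
    simp only [B, mem_iUnion, mem_preimage]
    constructor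
    · rintro ⟨δ, hδ⟩
      refine ⟨δ * γ⁻¹, ?_⟩
      rw [← hmul (δ * γ⁻¹) γ ξ hξ1, inv_mul_cancel_right]
      exact hδ
    · rintro ⟨δ, hδ⟩
      refine ⟨δ * γ, ?_⟩
      rw [hmul δ γ ξ hξ1]
      exact hδ
  rcases hM08 Γ A W ν hν B hB hinv with h | h
  · left
    have hsub : circ ∩ Sᶜ ⊆ B := by
      rintro ξ ⟨hξ, hξS⟩
      rw [hinv 1 ξ hξ]
      have hξ1 : ‖ξ‖ ≤ 1 := by
        have : ‖ξ‖ = 1 := by simpa [circ] using hξ
        exact this.le
      simp only [B, mem_iUnion, mem_preimage]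
      refine ⟨1, ?_⟩
      obtain ⟨-, -, -, h1, -⟩ := hB01 Γ A
      rw [h1 ξ hξ1, h1 ξ hξ1]
      exact hξS
    have hνS : ν Sᶜ = 0 := by
      refine measure_mono_null (t := B ∪ circᶜ) ?_ (measure_union_null h hν.supp)
      intro ξ hξ
      by_cases hc : ξ ∈ circ
      · exact Or.inl (hsub ⟨hc, hξ⟩)
      · exact Or.inr hc
    have hsing : ν.singularPart lam = 0 := by
      rw [← Measure.measure_univ_eq_zero, ← union_compl_self S]
      refine measure_union_null hS1 ?_
      exact le_antisymm ((Measure.singularPart_le ν lam _).trans hνS.le) bot_le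
    exact (Measure.singularPart_eq_zero ν lam).mp hsing
  · right
    exact ⟨Bᶜ, hB.compl, h, by rwa [compl_compl]⟩

end Pool.Agent.SG
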