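import Pool.Agent.helper17.SG.SpecP

/-!
# Project sg (MP_2b8aea_gt): module P02 (harmonic functions and hitting probabilities)
-/

set_option autoImplicit false

open MeasureTheory Set Metric Filter Topology
open scoped ENNReal NNReal ComplexConjugate

namespace Pool.Agent.SG

theorem P02 : P02_stmt := by
  intro Γ _ W h hh x y
  have key : ∀ (n : ℕ) (x : Γ), W.hitn n x y * h y ≤ h x := by
    intro n
    induction n with
    | zero =>
      intro x
      rw [Walk.hitn]
      split_ifs with hxy
      · rw [hxy, one_mul]
      · rw [zero_mul]
        exact bot_le
    | succ n ih =>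
      intro x
      rw [Walk.hitn]
      split_ifs with hxy
      · rw [hxy, one_mul]
      · rw [hh x, Finset.sum_mul]
        refine Finset.sum_le_sum fun s _ => ?_
        rw [mul_assoc]
        exact mul_le_mul_right (ih (x * s)) _
  unfold Walk.hit
  rw [ENNReal.iSup_mul]
  exact iSup_le fun n => key n x

end Pool.Agent.SG
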