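import Pool.Agent.helper3.SG.SpecS

/-!
# Project sg (MP_2b8aea_gt): module S26 (the derived series is near `1`)
-/

set_option autoImplicit false

open MeasureTheory Set Metric Filter Topology
open scoped ENNReal NNReal ComplexConjugate commutatorElement

namespace Pool.Agent.SG

lemma S26_nonneg {Γ : Type} [Group Γ] (A : DiscRep Γ) (γ : Γ) : 0 ≤ A.dev γ := by
  unfold DiscRep.dev
  positivity

theorem S26 (hS09 : S09_stmt) : S26_stmt := by
  intro Γ _ U Ak n h w hw
  let K : Subgroup Γ :=
    { carrier := {w | Tendsto (fun k => (Ak k).dev w) U (𝓝 0)}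
      mul_mem' := by
        intro x y hx hy
        change Tendsto (fun k => (Ak k).dev (x * y)) U (𝓝 0)
        have hx' : Tendsto (fun k => (Ak k).dev x) U (𝓝 0) := hx
        have hy' : Tendsto (fun k => (Ak k).dev y) U (𝓝 0) := hy
        have h1 : Tendsto (fun k => (Ak k).dev x + (Ak k).dev y + (Ak k).dev x * (Ak k).dev y) U
            (𝓝 0) := by
          have h2 := (hx'.add hy').add (hx'.mul hy')
          simpa using h2
        exact squeeze_zero (fun k => S26_nonneg _ _)
          (fun k => (hS09 Γ (Ak k)).2.2.1 x y) h1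
      one_mem' := by
        change Tendsto (fun k => (Ak k).dev 1) U (𝓝 0)
        have h1 := h 1 (one_mem _) 1 (one_mem _)
        rwa [commutatorElement_self] at h1
      inv_mem' := by
        intro x hx
        change Tendsto (fun k => (Ak k).dev x⁻¹) U (𝓝 0)
        have hx' : Tendsto (fun k => (Ak k).dev x) U (𝓝 0) := hx
        have h1 : (fun k => (Ak k).dev x⁻¹) = fun k => (Ak k).dev x :=
          funext fun k => (hS09 Γ (Ak k)).2.2.2 x
        rw [h1]
        exact hx' }
  have hK : derivedSeries Γ (n + 1) ≤ K := by
    rw [derivedSeries_succ, Subgroup.commutator_le]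
    intro u hu v hv
    exact h u hu v hv
  exact hK hw

end Pool.Agent.SG
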